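import Pool.Agent.H34.GSSym

/-!
# A gendo-symmetric algebra of global dimension `4` whose injective dimension as a bimodule is at
most `7`
-/

namespace Pool.Agent.Results.MP_38adfa_al.GendoSymmetricIdim

open CategoryTheory TensorProduct MulOpposite Pool.Agent.H34.GS

/-- The `K`-algebra `B` is symmetric: there is a `K`-linear isomorphism `φ` from `B` to
`Hom_K(B, K)` that is an isomorphism of `B`-bimodules, where `(b • f • b') d = f (b' * d * b)`. -/
def IsSymmetricAlgebra (K B : Type) [Field K] [Ring B] [Algebra K B] : Prop :=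
  ∃ φ : B ≃ₗ[K] Module.Dual K B,
    ∀ b c d : B, φ (b * c) d = φ c (d * b) ∧ φ (c * b) d = φ c (b * d)

/-- The `K`-algebra `A` is gendo-symmetric: it is isomorphic to `End_B(M)` for a
finite-dimensional symmetric `K`-algebra `B` and a finite-dimensional `B`-module `M` that has `B`
as a direct summand. -/
def IsGendoSymmetric (K A : Type) [Field K] [Ring A] [Algebra K A] : Prop :=
  ∃ (B : Type) (_ : Ring B) (_ : Algebra K B) (M : Type) (_ : AddCommGroup M) (_ : Module K M)
    (_ : Module B M) (_ : IsScalarTower K B M),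
    FiniteDimensional K B ∧ FiniteDimensional K M ∧ IsSymmetricAlgebra K B ∧
    (∃ (i : B →ₗ[B] M) (p : M →ₗ[B] B), p ∘ₗ i = LinearMap.id) ∧
    Nonempty (A ≃ₐ[K] Module.End B M)

/-- The global dimension: the supremum of the projective dimensions of the finitely generated
modules. -/
noncomputable def gldim (A : Type) [Ring A] : WithBot ℕ∞ :=
  ⨆ M : {M : ModuleCat.{0} A // Module.Finite A M}, projectiveDimension M.1

/-- The algebra `A` as a module over its enveloping algebra `A ⊗ Aᵐᵒᵖ`, with
`(a ⊗ b) • x = a * x * b`. -/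
noncomputable def bimodule (K A : Type) [Field K] [Ring A] [Algebra K A] :
    ModuleCat.{0} (A ⊗[K] Aᵐᵒᵖ) :=
  letI := instModuleTensorProductMop K A
  ModuleCat.of (A ⊗[K] Aᵐᵒᵖ) A

lemma gendo (K : Type) [Field K] : IsGendoSymmetric K (AA K) :=
  ⟨BB K, inferInstance, inferInstance, V K, inferInstance, inferInstance, inferInstance,
    inferInstance, finite_BB, inferInstance, symmetric_BB K, ⟨iB, pB, pB_iB⟩,
    ⟨(AlgEquiv.refl : Module.End (BB K) (V K) ≃ₐ[K] Module.End (BB K) (V K))⟩⟩

lemma gldim_AA (K : Type) [Field K] : gldim (AA K) = 4 := by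
  apply le_antisymm
  · refine iSup_le ?_
    rintro ⟨M, hM⟩
    let _ : Module K M := Module.compHom M (algebraMap K (AA K))
    have _ : IsScalarTower K (AA K) M :=
      ⟨fun k a x => by rw [Algebra.smul_def, mul_smul]; rfl⟩
    have : FiniteDimensional K M := Module.Finite.trans (AA K) M
    have h := pd_fd (K := K) M
    exact (projectiveDimension_le_iff M 4).2 h
  · have hK : Module.Finite K (SS K 3) := inferInstanceAs (Module.Finite K K)
    have hf : Module.Finite (AA K) (SS K 3) := Module.Finite.of_restrictScalars_finite K _ _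
    refine le_trans ?_ (le_iSup _ (⟨ModuleCat.of (AA K) (SS K 3), hf⟩ :
      {M : ModuleCat.{0} (AA K) // Module.Finite (AA K) M}))
    by_contra h
    have h1 : projectiveDimension (ModuleCat.of (AA K) (SS K 3)) < (4 : ℕ) := not_le.1 h
    rw [projectiveDimension_lt_iff] at h1
    exact not_pdSa h1

lemma idim_AA (K : Type) [Field K] : injectiveDimension (bimodule K (AA K)) ≤ 7 := by
  let _ : Module (AA K ⊗[K] (AA K)ᵐᵒᵖ) (AA K) := instModuleTensorProductMop K (AA K)
  have hs : ∀ (a : AA K) (b : (AA K)ᵐᵒᵖ) (x : AA K), (a ⊗ₜ[K] b) • x = a * x * b.unop := by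
    intro a b x
    exact AlgHom.mulLeftRight_apply K (AA K) a b x
  have _ : IsScalarTower K (AA K ⊗[K] (AA K)ᵐᵒᵖ) (AA K) := {
    smul_assoc := fun r ab a ↦ by
      change TensorProduct.Algebra.moduleAux _ _ = _ • TensorProduct.Algebra.moduleAux _ _
      simp }
  have h : ID (AA K ⊗[K] (AA K)ᵐᵒᵖ) (AA K) 8 := by
    refine (DD K).id_bimodule 8 (fun i j => ¬ (i = 5 ∧ j = 3)) (fun i j hij => id_HomB hij) _
      (AA K) ?_ rfl
    intro i j hij x
    rw [not_not] at hij
    obtain ⟨rfl, rfl⟩ := hij
    rw [hs]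
    exact ee_mul_ee x
  exact (injectiveDimension_le_iff _ 7).2 h

/-- For every field `K` there is a finite-dimensional gendo-symmetric `K`-algebra of global
dimension `4` whose injective dimension as a bimodule is at most `7`, hence not `8`. -/
theorem result (K : Type) [Field K] : ∃ (A : Type) (_ : Ring A) (_ : Algebra K A),
    FiniteDimensional K A ∧ IsGendoSymmetric K A ∧ gldim A = 4 ∧
      injectiveDimension (bimodule K A) ≤ 7 :=
  ⟨AA K, inferInstance, inferInstance, finite_AA, gendo K, gldim_AA K, idim_AA K⟩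

end Pool.Agent.Results.MP_38adfa_al.GendoSymmetricIdim
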